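import Pool.Agent.Y840.CT.Low

/-!
# Almost all Chen primes lie on long narrow progressions of Chen primes

For all `k`, `θ`, `δ` there is `D` such that for all large `X`, in every interval of length `≥ θ X` below
`X`: all but a proportion `δ` of the primes `p` for which `p + 2` is a product of at most two primes
(and `p + h` is almost prime for finitely many further shifts `h`) lie on a `k`-term progression of
such primes with difference `≤ log ^ D X`; and this holds inside every subset of these primes.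

The proof combines the sieve of Chen (`Pool.Agent.Y840.CT.genI`) and Szemerédi's theorem relative to sifted
sets, with narrow progressions (`Pool.Agent.Y843.HS.fin`), of the starting library.
-/

set_option autoImplicit false

open Finset Filter

namespace Pool.Agent.Results.MP_a1f59e_nt.ChenTwinProgressions

/-- `m ≠ 0` is up to the sign a product of at most `t` primes, all of them larger than `y` -/
def Rough (t : ℕ) (y : ℝ) (m : ℤ) : Prop :=
  m ≠ 0 ∧ m.natAbs.primeFactorsList.length ≤ t ∧ ∀ q : ℕ, q.Prime → (q : ℤ) ∣ m → y < q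

/-- the number of the residue classes modulo `q` of `0` and of the elements of `H` -/
def rho (H : Finset ℤ) (q : ℕ) : ℕ := ((insert 0 H).image (fun h : ℤ => h % q)).card

/-- `H` contains `2`, has at most `r` elements, all of them nonzero and at most `X` in absolute value,
and for no prime `q` all the products `n * ∏ h ∈ H, (n + h)` are divisible by `q` -/
structure Shifts (r X : ℕ) (H : Finset ℤ) : Prop where
  two : 2 ∈ H
  card : H.card ≤ r
  size : ∀ h ∈ H, h ≠ 0 ∧ |h| ≤ X
  loc : ∀ q : ℕ, q.Prime → rho H q < q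

open Classical in
/-- the primes `p > X ^ (1/t)` of `(A, B]` for which `p + 2` is a product of at most two primes
`> X ^ (1/9)` and all `p + h`, `h ∈ H`, are up to the sign products of at most `t` primes `> X ^ (1/t)` -/
noncomputable def P (t X A B : ℕ) (H : Finset ℤ) : Finset ℕ :=
  (Ioc A B).filter (fun p : ℕ => p.Prime ∧ (X : ℝ) ^ (1 / (t : ℝ)) < p ∧
    Rough 2 ((X : ℝ) ^ (1 / 9 : ℝ)) (p + 2) ∧ ∀ h ∈ H, Rough t ((X : ℝ) ^ (1 / (t : ℝ))) (p + h))

/-- the sieve product -/
noncomputable def V (H : Finset ℤ) (X : ℕ) : ℝ :=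
  ∏ q ∈ (Icc 1 X).filter Nat.Prime, (1 - (rho H q : ℝ) / q)

/-- `p` is one of the terms of a `k`-term arithmetic progression of elements of `S` with a difference
between `1` and `D` -/
def OnAP (k : ℕ) (D : ℝ) (S : Finset ℕ) (p : ℕ) : Prop :=
  ∃ a d : ℕ, 1 ≤ d ∧ (d : ℝ) ≤ D ∧ (∀ j < k, a + j * d ∈ S) ∧ ∃ j < k, p = a + j * d

/-! ### the general case -/

/-- the shifts in the form of the library -/
def neg (H : Finset ℤ) : Finset ℤ := H.image (fun h => -h)

theorem rho_neg (H : Finset ℤ) {q : ℕ} (hq : 0 < q) : Pool.Agent.Y840.CT.rho (neg H) q = rho H q := by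
  unfold Pool.Agent.Y840.CT.rho rho neg
  have hq' : (0 : ℤ) < q := by exact_mod_cast hq
  have h1 : (insert 0 (H.image (fun h : ℤ => -h))).image (fun h : ℤ => h % q) =
      ((insert 0 H).image (fun h : ℤ => h % q)).image (fun x : ℤ => (-x) % q) := by
    rw [image_image, image_insert, image_insert, image_image]
    simp only [Function.comp_def]
    congr 1
    apply image_congr
    intro h _
    exact ((Int.mod_modEq h q).neg).symm
  rw [h1]
  apply card_image_of_injOn
  intro x hx y hy hxy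
  rw [coe_image, Set.mem_image] at hx hy
  obtain ⟨u, _, rfl⟩ := hx
  obtain ⟨v, _, rfl⟩ := hy
  simp only at hxy ⊢
  have h2 : (-(u % q)) ≡ (-(v % q)) [ZMOD q] := hxy
  have h3 := h2.neg
  rw [neg_neg, neg_neg] at h3
  have h4 : u % q % q = v % q % q := h3
  rwa [Int.emod_emod, Int.emod_emod] at h4

theorem sys_of {r X : ℕ} {H : Finset ℤ} (h : Shifts r X H) : Pool.Agent.Y840.CT.Sys r X (neg H) := by
  refine ⟨?_, ?_, ?_⟩
  · exact card_image_le.trans h.card
  · intro x hx
    unfold neg at hx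
    rw [mem_image] at hx
    obtain ⟨y, hy, rfl⟩ := hx
    obtain ⟨h1, h2⟩ := h.size y hy
    exact ⟨neg_ne_zero.2 h1, by rwa [abs_neg]⟩
  · intro q hq
    rw [rho_neg H hq.pos]
    exact h.loc q hq

theorem mem_neg {H : Finset ℤ} (h : (2 : ℤ) ∈ H) : (-2 : ℤ) ∈ neg H := by
  unfold neg
  rw [mem_image]
  exact ⟨2, h, rfl⟩

theorem rough_neg (t : ℕ) (y : ℝ) (m : ℤ) : Pool.Agent.Y840.CT.Rough t y (-m) ↔ Rough t y m := by
  unfold Pool.Agent.Y840.CT.Rough Rough
  rw [neg_ne_zero, Int.natAbs_neg]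
  simp only [dvd_neg]

theorem P_eq (t X A B : ℕ) (H : Finset ℤ) :
    P t X A B H = Pool.Agent.Y840.CT.Good t X A B (neg H) (-2) := by
  classical
  unfold P Pool.Agent.Y840.CT.Good
  apply filter_congr
  intro p _
  have e2 : (-2 : ℤ) - p = -((p : ℤ) + 2) := by ring
  rw [e2, rough_neg]
  unfold neg
  simp only [mem_image, forall_exists_index, and_imp, forall_apply_eq_imp_iff₂]
  have e3 : ∀ h : ℤ, -h - (p : ℤ) = -((p : ℤ) + h) := fun h => by ring
  simp only [e3, rough_neg]

theorem V_eq (H : Finset ℤ) (X : ℕ) : V H X = Pool.Agent.Y840.CT.Vp (neg H) X := by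
  unfold V Pool.Agent.Y840.CT.Vp
  apply prod_congr rfl
  intro q hq
  rw [mem_filter] at hq
  rw [rho_neg H hq.2.pos]

/-- (1) For every `r` there are `t ≥ 1`, `c > 0` such that for all `θ > 0`, all large `X`, all sets `H` of at
most `r` shifts and all `A < B ≤ X` with `B - A ≥ θ X`, the set `P` has at least `c (B - A) V(H)` elements, and
`V(H) ≥ c / log ^ (r + 1) X`.  (2) With the same `t`: for all `k ≥ 1` and `θ, δ > 0` there is `D` such that
for all large `X`, all these `H`, `A`, `B` and every `S ⊆ P`: all elements of `S` with at most `δ #P`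
exceptions lie on `k`-term progressions of elements of `S` with difference `≤ log ^ D X`. -/
theorem result (r : ℕ) : ∃ t : ℕ, 1 ≤ t ∧ ∃ c : ℝ, 0 < c ∧
    (∀ θ : ℝ, 0 < θ → ∃ X₀ : ℕ, ∀ X : ℕ, X₀ ≤ X → ∀ H : Finset ℤ, Shifts r X H →
      c / Real.log X ^ (r + 1) ≤ V H X ∧
      ∀ A B : ℕ, B ≤ X → θ * X ≤ (B : ℝ) - A → c * ((B : ℝ) - A) * V H X ≤ ((P t X A B H).card : ℝ)) ∧
    (∀ k : ℕ, 1 ≤ k → ∀ θ δ : ℝ, 0 < θ → 0 < δ → ∃ D X₀ : ℕ, ∀ X : ℕ, X₀ ≤ X →
      ∀ H : Finset ℤ, Shifts r X H → ∀ A B : ℕ, B ≤ X → θ * X ≤ (B : ℝ) - A →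
      ∀ S : Finset ℕ, S ⊆ P t X A B H →
        (Set.ncard {p : ℕ | p ∈ S ∧ ¬ OnAP k (Real.log X ^ D) S p} : ℝ) ≤
          δ * ((P t X A B H).card : ℝ)) := by
  classical
  obtain ⟨t, ht, c, hc, H1, H2⟩ := Pool.Agent.Y840.CT.genI r
  obtain ⟨c2, hc2, hV⟩ := Pool.Agent.Y840.CT.Vp_low r
  refine ⟨t, ht, min c c2, lt_min hc hc2, ?_, ?_⟩
  · intro θ hθ
    obtain ⟨X₀, h1⟩ := H1 θ hθ
    refine ⟨max X₀ 2, fun X hX H hS => ?_⟩
    have hX2 : 2 ≤ X := (le_max_right _ _).trans hX
    have hlX : 0 < Real.log X := Real.log_pos (by exact_mod_cast (by omega : 1 < X))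
    have hS' := sys_of hS
    have hVn : c2 / Real.log X ^ (r + 1) ≤ V H X := by
      rw [V_eq]
      exact hV X hX2 (neg H) hS'.card hS'.loc
    have hV0 : 0 ≤ V H X := le_trans (by positivity) hVn
    refine ⟨?_, ?_⟩
    · refine le_trans ?_ hVn
      apply div_le_div_of_nonneg_right (min_le_right _ _)
      positivity
    · intro A B hB hAB
      have hBA : 0 ≤ (B : ℝ) - A := le_trans (by positivity) hAB
      rw [P_eq]
      refine le_trans ?_ (h1 X ((le_max_left _ _).trans hX) _ hS' _ (mem_neg hS.two) A B hB hAB)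
      rw [← V_eq]
      apply mul_le_mul_of_nonneg_right _ hV0
      exact mul_le_mul_of_nonneg_right (min_le_left _ _) hBA
  · intro k hk θ δ hθ hδ
    obtain ⟨D, X₀, h1⟩ := H2 k θ δ hθ hδ
    refine ⟨D, X₀, fun X hX H hS A B hB hAB S hSP => ?_⟩
    set Bd := S.filter (fun p => ¬ OnAP k (Real.log X ^ D) S p) with hBd
    have hset : {p : ℕ | p ∈ S ∧ ¬ OnAP k (Real.log X ^ D) S p} = (Bd : Set ℕ) := by
      ext p
      rw [hBd]
      simp
    rw [hset, Set.ncard_coe_finset]
    by_contra hcon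
    push Not at hcon
    rw [P_eq] at hSP hcon
    obtain ⟨a, d, hd1, hd2, hd3⟩ := h1 X hX _ (sys_of hS) _ (mem_neg hS.two) A B hB hAB Bd
      ((filter_subset _ _).trans hSP) hcon.le
    have ha := hd3 0 hk
    rw [zero_mul, add_zero, hBd, mem_filter] at ha
    apply ha.2
    refine ⟨a, d, hd1, hd2, fun j hj => ?_, 0, hk, by simp⟩
    have := hd3 j hj
    rw [hBd, mem_filter] at this
    exact this.1

end Pool.Agent.Results.MP_a1f59e_nt.ChenTwinProgressions
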