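import Pool.Agent.Q46.SL.Tools
import Pool.Agent.Q46.SL.Sidon

/-!
# Arithmetic progressions of twin almost primes with prescribed difference, starting at all the coordinates of the members of dense Sidon sets

The problem asks for `x`, `η` such that all `x + k η` and `x + k η + 2`, `k < l`, are primes. We prescribe the difference `η`
(of absolute value at most `n ^ B`; there is no local obstruction for `m = 0` if all primes `≤ 2 l` divide `η`) and look for `x`
such that all the `2 l` numbers have at most `R` prime factors, all larger than `n ^ κ`.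

EVERY Sidon set `A` of vectors in `{1, ..., n} ^ r` of nearly maximal size, `|A|² ≥ n ^ r (1 - n ^ (-δ))`, has at least
`cc |A| / (log n) ^ (r (m + 2 l))` members ALL of whose coordinates have the property (for `r = 2` this includes all Costas arrays). Here the property is: all `x + k η` and `x + k η + 2`, `k < l`, have at most `R` prime factors, all larger than `n ^ κ`.

In addition the numbers avoid arbitrary residue classes, at most `m` classes `E q` modulo each prime `q ≤ z`, as long as there is no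
local obstruction; `m = 0` is the case without classes. The exponent `κ`, the number `R` and the constant `cc` do not depend on the
classes.

Design and proof: helper46 (modules `Pool.Agent.Q46.SV.*`, `Pool.Agent.Q46.SL.*`): the vectors of the residues in question are
equidistributed modulo all small integers with a power saving, by bounds for exponential sums; the fundamental lemma of the
sieve is applied to the vectors.
-/

set_option autoImplicit false

namespace Pool.Agent.Results.MP_a1f59e_nt.DenseSidonSets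

open Finset Polynomial
open Pool.Agent.Q46.SL hiding Almost

/-- `n` is not zero and has at most `R` prime factors (counted with multiplicity), all larger than `z` -/
def Almost (z : ℝ) (R : ℕ) (n : ℤ) : Prop :=
  n ≠ 0 ∧ n.natAbs.primeFactorsList.length ≤ R ∧ ∀ q : ℕ, q.Prime → (q : ℤ) ∣ n → z < q

/-- `x` is positive, all `x + k η` and `x + k η + 2`, `k < l`, have at most `R` prime factors, all larger than `z`, and `x` avoids the classes `E q`, `q ≤ z` -/
def Good (l : ℕ) (η : ℤ) (z : ℝ) (R : ℕ) (E : ℕ → Finset ℕ) (x : ℤ) : Prop :=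
  0 < x ∧ (∀ k : Fin l, Almost z R (x + k * η) ∧ Almost z R (x + k * η + 2)) ∧ ∀ q : ℕ, q.Prime → (q : ℝ) ≤ z → (x % q).toNat ∉ E q

/-- `E q` has at most `m` elements, and for some residue `a` outside `E q` none of `a + k η`, `a + k η + 2`, `k < l`, is divisible by `q` -/
def Adm (l : ℕ) (η : ℤ) (m : ℕ) (E : ℕ → Finset ℕ) : Prop :=
  ∀ q : ℕ, q.Prime → (E q).card ≤ m ∧ ∃ a < q, a ∉ E q ∧ ∀ k : Fin l, ¬ (q : ℤ) ∣ a + k * η ∧ ¬ (q : ℤ) ∣ a + k * η + 2

/-- the polynomials and the classes -/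
noncomputable def sysE (l : ℕ) (η : ℤ) (m : ℕ) (E : ℕ → Finset ℕ) (hE : Adm l η m E) : PE (2 * l) m (2 * l) where
  f := fun j => X + C (((((j : ℕ) / 2 : ℕ) : ℤ)) * η + 2 * (((j : ℕ) % 2 : ℕ) : ℤ))
  E := E
  deg := by
    have h1 : ∀ j : Fin (2 * l), (X + C (((((j : ℕ) / 2 : ℕ) : ℤ)) * η + 2 * (((j : ℕ) % 2 : ℕ) : ℤ)) : ℤ[X]).natDegree ≤ 1 :=
      fun j => by compute_degree
    refine (sum_le_sum fun j _ => h1 j).trans ?_
    simp
  adm := by
    intro q hq
    obtain ⟨h1, a, ha, haE, h2⟩ := hE q hq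
    refine ⟨h1, a, ha, haE, fun j => ?_⟩
    obtain ⟨h3, h4⟩ := h2 ⟨(j : ℕ) / 2, by have := j.2; omega⟩
    rcases Nat.mod_two_eq_zero_or_one (j : ℕ) with h5 | h5
    · simpa [h5] using h3
    · simpa [h5, add_assoc] using h4

lemma good_of {l : ℕ} {η : ℤ} {m B : ℕ} {E : ℕ → Finset ℕ} (hE : Adm l η m E) {κ M : ℝ} (hM : ((l + 3 : ℕ) : ℝ) ≤ M)
    (hh : |(η : ℝ)| ≤ M ^ B) {x : ℤ} (hN : Near (B + 1) (sysE l η m E hE) κ M x) (hx : (x : ℝ) ≤ M) :
    Good l η (M ^ κ) ⌊(((B + 1) : ℕ) + ((2 * l) : ℕ) + 1 : ℝ) / κ⌋₊ E x := by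
  obtain ⟨h0, h12⟩ := hN
  obtain ⟨h1, h2⟩ := h12 (by
    intro j
    have hB : (1 : ℝ) ≤ M ^ B := one_le_pow₀ (by
      have : (0 : ℝ) ≤ l := Nat.cast_nonneg _
      have : (l : ℝ) + 3 ≤ M := by exact_mod_cast hM
      linarith)
    refine cb_mono (cb_add cb_X (cb_C _)) ?_
    have hj : (j : ℕ) / 2 ≤ l := by have := j.2; omega
    have hj1 : (((j : ℕ) / 2 : ℕ) : ℝ) ≤ l := by exact_mod_cast hj
    have hj2 : (((j : ℕ) % 2 : ℕ) : ℝ) ≤ 1 := by
      have : (j : ℕ) % 2 ≤ 1 := by omega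
      exact_mod_cast this
    have hj0 : (0 : ℝ) ≤ (((j : ℕ) / 2 : ℕ) : ℝ) := Nat.cast_nonneg _
    have hj3 : (0 : ℝ) ≤ (((j : ℕ) % 2 : ℕ) : ℝ) := Nat.cast_nonneg _
    have e1 : |((((((j : ℕ) / 2 : ℕ) : ℤ)) * η + 2 * (((j : ℕ) % 2 : ℕ) : ℤ) : ℤ) : ℝ)| ≤ l * M ^ B + 2 := by
      simp only [Int.cast_add, Int.cast_mul, Int.cast_natCast, Int.cast_ofNat]
      refine (abs_add_le _ _).trans (add_le_add ?_ ?_)
      · rw [abs_mul, Nat.abs_cast]
        exact mul_le_mul hj1 hh (abs_nonneg _) (Nat.cast_nonneg _)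
      · rw [abs_mul, Nat.abs_cast, abs_two]
        linarith
    have e2 : (l : ℝ) + 3 ≤ M := by exact_mod_cast hM
    rw [pow_succ]
    have e3 : (1 : ℝ) ≤ M ^ B := hB
    have e4 : M ^ B * ((l : ℝ) + 3) ≤ M ^ B * M := mul_le_mul_of_nonneg_left e2 (by linarith)
    linarith) hx
  refine ⟨h0, fun k => ⟨?_, ?_⟩, h2⟩
  · have h3 := h1 ⟨2 * (k : ℕ), by have := k.2; omega⟩
    have e3 : ((sysE l η m E hE).f ⟨2 * (k : ℕ), by have := k.2; omega⟩).eval x = x + k * η := by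
      show (X + C ((((2 * (k : ℕ)) / 2 : ℕ) : ℤ) * η + 2 * (((2 * (k : ℕ)) % 2 : ℕ) : ℤ)) : ℤ[X]).eval x = _
      rw [show (2 * (k : ℕ)) / 2 = k by omega, show (2 * (k : ℕ)) % 2 = 0 by omega]
      simp
    rw [e3] at h3
    exact h3
  · have h3 := h1 ⟨2 * (k : ℕ) + 1, by have := k.2; omega⟩
    have e3 : ((sysE l η m E hE).f ⟨2 * (k : ℕ) + 1, by have := k.2; omega⟩).eval x = x + k * η + 2 := by
      show (X + C ((((2 * (k : ℕ) + 1) / 2 : ℕ) : ℤ) * η + 2 * (((2 * (k : ℕ) + 1) % 2 : ℕ) : ℤ)) : ℤ[X]).eval x = _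
      rw [show (2 * (k : ℕ) + 1) / 2 = k by omega, show (2 * (k : ℕ) + 1) % 2 = 1 by omega]
      simp
      ring
    rw [e3] at h3
    exact h3

/-- Sidon sets of vectors of integers -/
def IsSidon {r : ℕ} (A : Finset (Fin r → ℤ)) : Prop :=
  ∀ a ∈ A, ∀ b ∈ A, ∀ c ∈ A, ∀ d ∈ A, a + b = c + d → (a = c ∧ b = d) ∨ (a = d ∧ b = c)

/-- Arithmetic progressions of `l` twin almost primes with prescribed difference start at all the coordinates of many members of every dense Sidon set. -/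
theorem result (l B m : ℕ) (r : ℕ) (hr : 1 ≤ r) (δ : ℝ) (hδ : 0 < δ) :
    ∃ κ : ℝ, 0 < κ ∧ ∃ cc : ℝ, 0 < cc ∧ ∃ R n₀ : ℕ, ∀ n : ℕ, n₀ ≤ n → ∀ η : ℤ, |(η : ℝ)| ≤ (n : ℝ) ^ B → ∀ E : ℕ → Finset ℕ, Adm l η m E → 
      ∀ A : Finset (Fin r → ℤ), IsSidon A → (∀ a ∈ A, ∀ j, 1 ≤ a j ∧ a j ≤ n) →
        (n : ℝ) ^ r * (1 - (n : ℝ) ^ (-δ)) ≤ (A.card : ℝ) ^ 2 →
        ∃ G ⊆ A, cc * (A.card : ℝ) / Real.log n ^ (r * (m + (2 * l))) ≤ G.card ∧
          ∀ a ∈ G, ∀ j, Good l η ((n : ℝ) ^ κ) R E (a j) := by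
  classical
  obtain ⟨κ, hκ, cc, hcc, n₀, h⟩ := Pool.Agent.Q46.SL.sidon_main (Near (B + 1) : PE (2 * l) m (2 * l) → ℝ → ℝ → ℤ → Prop)
    (lg (m + (2 * l))) (fun r _ => csN (2 * l) m (2 * l) (B + 1) r) r hr (min δ (1 / 4)) (lt_min hδ (by norm_num)) (min_le_right _ _)
  refine ⟨κ, hκ, cc, hcc, ⌊(((B + 1) : ℕ) + ((2 * l) : ℕ) + 1 : ℝ) / κ⌋₊, max (l + 3) (max n₀ 1), ?_⟩
  intro n hn η ht E hE A hA hAn hAc
  have hpr : ((l + 3 : ℕ) : ℝ) ≤ n := by exact_mod_cast (le_max_left _ _).trans hn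
  have hn0 : n₀ ≤ n := ((le_max_left _ _).trans (le_max_right _ _)).trans hn
  have hn1 : (1 : ℝ) ≤ n := by exact_mod_cast ((le_max_right _ _).trans (le_max_right _ _)).trans hn
  have h1 : (n : ℝ) ^ (-δ) ≤ (n : ℝ) ^ (-(min δ (1 / 4))) :=
    Real.rpow_le_rpow_of_exponent_le hn1 (by linarith [min_le_left δ (1 / 4)])
  have h2 : (n : ℝ) ^ r * (1 - (n : ℝ) ^ (-(min δ (1 / 4)))) ≤ (A.card : ℝ) ^ 2 :=
    (mul_le_mul_of_nonneg_left (by linarith) (by positivity)).trans hAc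
  have key := h n hn0 (sysE l η m E hE) A hA hAn h2
  refine ⟨A.filter (fun v => ∀ j, Near (B + 1) (sysE l η m E hE) κ n (v j)), filter_subset _ _,
    le_trans (cnt le_rfl (Nat.cast_nonneg _) (log0 n) _ _) key, ?_⟩
  intro a ha j
  rw [mem_filter] at ha
  exact good_of hE hpr ht (ha.2 j) (by exact_mod_cast (hAn a ha.1 j).2)

end Pool.Agent.Results.MP_a1f59e_nt.DenseSidonSets
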