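import Pool.Agent.Q315.RD

/-!
# Progressions of twin almost primes with any common difference and with first terms with restricted digits

Let `g ≥ 2` be a base and `K` a large number of digits. For every `i < K` let `A i` be an arbitrary non-empty set of digits. Nothing
is assumed about these sets except that they are not too small on average: the number `|A 0| ⋯ |A (K - 1)|` of the integers
`t < g ^ K` whose `i`-th digit belongs to `A i` for all `i < K` is at least `exp (- c K) g ^ K`, where `c > 0` does not depend on the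
base (`Rich`). Let `1 ≤ N ≤ g ^ (E K)` be arbitrary, so that the interval `[N, N + g ^ K)` may be very short, let `l ≥ 1`, and let
`b ≤ g ^ (E K)` be ANY multiple of the primes `≤ 2 l` (much larger or much smaller than the interval).

The number of the first terms `a = N + t` in this interval with these `t` for which all the `2 l` numbers `a + k b`, `a + k b + 2`,
`k = 0, …, l - 1`, have at most `r` prime factors, all larger than `g ^ (K / r)`, is at least `κ V |A 0| ⋯ |A (K - 1)|`, unless
there is an obvious obstruction (no digit `d` in `A 0` such that the `2 l` numbers for `a = N + d` are prime to `g`); here `V` is the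
product of `1 - ν (p) / p` over the primes `p ≤ g ^ K`, where `ν (p)` is the number of the residue classes `a` modulo `p` for which
`p` divides one of the `2 l` numbers, the expected order. The number of the `a = N + t` for which the `2 l` numbers are PRIMES is at
most `C V |A 0| ⋯ |A (K - 1)|`. The constants depend only on `l`, `E`, `r`, `g`: not on the sets `A i`, on `N` and on `b`.

Proof. The theorem on almost prime values of polynomials at integers with restricted digits, uniform in the polynomial, of the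
starting library (`Pool.Agent.Y816.PD.uni_fun`).
-/

set_option autoImplicit false

namespace Pool.Agent.Results.MP_a1f59e_nt.RestrictedDigits

open Filter Finset Polynomial
open Pool.Agent.Q315.RD

/-- The `2 l` numbers `a + k b`, `a + k b + 2` (`k = 0, …, l - 1`), `a = N + t`. -/
def member {l : ℕ} (N b : ℕ) (i : Fin l × Fin 2) (t : ℕ) : ℕ := N + t + i.1 * b + 2 * i.2

/-- the same numbers, numbered by `Fin (l * 2)` -/
def mem' (l N b : ℕ) (i : Fin (l * 2)) (t : ℕ) : ℕ := member N b (finProdFinEquiv.symm i) t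

/-- The number of the residue classes modulo `p` of the `t` for which `p` divides one of the `2 l` numbers. -/
noncomputable def bad (l N b p : ℕ) : ℕ := classes p fun t => ∃ i : Fin l × Fin 2, p ∣ member N b i t

/-- The product of `1 - ν (p) / p` over the primes `p ≤ y`. -/
noncomputable def expected (l N b y : ℕ) : ℝ :=
  ∏ p ∈ (Icc 1 y).filter Nat.Prime, (1 - (bad l N b p : ℝ) / p)

lemma density_mem (l N b y : ℕ) : density (mem' l N b) y = expected l N b y := by
  unfold density expected bad
  apply prod_congr rfl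
  intro p _
  have : (fun t => ∃ i, p ∣ mem' l N b i t) = fun t => ∃ i : Fin l × Fin 2, p ∣ member N b i t := by
    funext t
    exact propext ⟨fun ⟨i, hi⟩ => ⟨_, hi⟩, fun ⟨i, hi⟩ => ⟨finProdFinEquiv i, by
      unfold mem'; rw [Equiv.symm_apply_apply]; exact hi⟩⟩
  rw [this]

lemma forall_mem (l N b t : ℕ) (P : ℕ → Prop) : (∀ i, P (mem' l N b i t)) ↔ ∀ i : Fin l × Fin 2, P (member N b i t) :=
  ⟨fun h i => by
    have := h (finProdFinEquiv i)
    unfold mem' at this
    rwa [Equiv.symm_apply_apply] at this, fun h i => h _⟩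

/-- no local obstruction -/
lemma adm {l N b : ℕ} (hb : ∀ p : ℕ, p.Prime → p ≤ 2 * l → p ∣ b) (p : ℕ) (hp : p.Prime) :
    ∃ t : ℕ, ∀ i : Fin l × Fin 2, ¬ p ∣ member N b i t := by
  classical
  by_cases hle : p ≤ 2 * l
  · -- `a = 1` modulo `p` for `p ≠ 3`, `a = 2` modulo `3`
    have hpb := hb p hp hle
    obtain ⟨u, hu0, hu1, hu2⟩ : ∃ u : ℕ, u < p + p ∧ ¬ p ∣ u ∧ ¬ p ∣ u + 2 := by
      rcases eq_or_ne p 3 with rfl | h3
      · exact ⟨2, by norm_num, by norm_num, by norm_num⟩
      · refine ⟨1, by have := hp.two_le; omega, fun h => ?_, fun h => ?_⟩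
        · have := Nat.le_of_dvd one_pos h
          have := hp.two_le
          omega
        · exact h3 ((Nat.prime_dvd_prime_iff_eq hp Nat.prime_three).1 (by simpa using h))
    refine ⟨(p - 1) * N + u, fun i hi => ?_⟩
    unfold member at hi
    have e0 : N + ((p - 1) * N + u) + i.1 * b + 2 * i.2 = (p * N + i.1 * b) + (u + 2 * i.2) := by
      obtain ⟨m, rfl⟩ : ∃ m, p = m + 1 := ⟨p - 1, by have := hp.two_le; omega⟩
      simp only [Nat.add_sub_cancel]
      ring
    rw [e0] at hi
    have h1 : p ∣ p * N + i.1 * b := dvd_add (Dvd.intro _ rfl) (hpb.mul_left _)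
    have h2 := (Nat.dvd_add_right h1).1 hi
    have h3 : ((i.2 : Fin 2) : ℕ) = 0 ∨ ((i.2 : Fin 2) : ℕ) = 1 := by omega
    rcases h3 with h3 | h3
    · rw [h3] at h2; exact hu1 (by simpa using h2)
    · rw [h3] at h2; exact hu2 (by simpa using h2)
  · -- fewer than `p` bad classes
    by_contra hcon
    push Not at hcon
    have : Fact p.Prime := ⟨hp⟩
    choose φ hφ using hcon
    have hinj : Set.InjOn φ (range p : Set ℕ) := by
      intro s hs t ht hst
      have h1 := hφ s
      have h2 := hφ t
      rw [hst] at h1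
      unfold member at h1 h2
      have h3 : (s : ℕ) % p = t % p := by
        have h4 : ((N + s + (φ t).1 * b + 2 * (φ t).2 : ℕ) : ZMod p) = 0 := (ZMod.natCast_eq_zero_iff _ _).2 h1
        have h5 : ((N + t + (φ t).1 * b + 2 * (φ t).2 : ℕ) : ZMod p) = 0 := (ZMod.natCast_eq_zero_iff _ _).2 h2
        have h6 : (s : ZMod p) = (t : ZMod p) := by
          push_cast at h4 h5
          linear_combination h4 - h5
        exact (ZMod.natCast_eq_natCast_iff' s t p).1 h6
      rw [Nat.mod_eq_of_lt (by simpa using hs), Nat.mod_eq_of_lt (by simpa using ht)] at h3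
      exact h3
    have hcard := card_le_card_of_injOn φ (s := range p) (t := (univ : Finset (Fin l × Fin 2))) (fun _ _ => by simp) hinj
    rw [card_range, card_univ, Fintype.card_prod, Fintype.card_fin, Fintype.card_fin] at hcard
    omega

lemma poly {l N b : ℕ} (i : Fin l × Fin 2) :
    ∃ P : Polynomial ℤ, P.natDegree ≤ 1 ∧ ∀ t : ℕ, P.eval (t : ℤ) = (member N b i t : ℤ) := by
  refine ⟨X + C ((N + i.1 * b + 2 * i.2 : ℕ) : ℤ), by compute_degree, fun t => ?_⟩
  simp only [eval_add, eval_C, eval_X]
  unfold member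
  push_cast
  ring

/-- **Progressions of twin almost primes with restricted digits, uniformly in the common difference.** -/
theorem result (l E : ℕ) (hl : 1 ≤ l) :
    ∃ c : ℝ, 0 < c ∧ ∃ r₀ : ℕ, 2 ≤ r₀ ∧ ∀ r : ℕ, r₀ ≤ r → ∀ g : ℕ, 2 ≤ g → ∃ κ C : ℝ, 0 < κ ∧ 0 < C ∧
      ∀ᶠ K : ℕ in atTop, ∀ N b : ℕ, N ≤ g ^ (E * K) → b ≤ g ^ (E * K) →
        (∀ p : ℕ, p.Prime → p ≤ 2 * l → p ∣ b) → ∀ A : ℕ → Finset ℕ, Rich c g K A →
        ((∃ d ∈ A 0, ∀ i : Fin l × Fin 2, (member N b i d).Coprime g) →
          κ * expected l N b (g ^ K) * choices K A ≤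
            count g K A fun t => ∀ i : Fin l × Fin 2, AlmostPrime (g ^ K) r (member N b i t)) ∧
        (count g K A (fun t => ∀ i : Fin l × Fin 2, (member N b i t).Prime) : ℝ) ≤
          C * expected l N b (g ^ K) * choices K A := by
  obtain ⟨c, hc, r₀, hr₀, h⟩ := forms (l * 2) ((E + 4) * (l * 2)) (by omega)
  refine ⟨c, hc, r₀, hr₀, fun r hr g hg => ?_⟩
  obtain ⟨κ, C, hκ, hC, h1⟩ := h r hr g hg
  refine ⟨κ, C, hκ, hC, ?_⟩
  filter_upwards [h1, eventually_ge_atTop (l + 2)] with K hK hK1
  intro N b hN hb hbp A hA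
  have hg1 : 1 ≤ g := by omega
  have hKg : K ≤ g ^ K := (Nat.lt_two_pow_self (n := K)).le.trans (Nat.pow_le_pow_left hg K)
  choose P hP1 hP2 using fun i : Fin (l * 2) => poly (N := N) (b := b) (finProdFinEquiv.symm i)
  have h2 := hK (l * 2) (mem' l N b)
    ⟨∏ i, P i, (natDegree_prod_le _ _).trans ((sum_le_sum fun i _ => hP1 i).trans (by simp)), fun t => by
      rw [eval_prod]
      exact prod_congr rfl fun i _ => hP2 i t⟩
    (fun p hp => by
      obtain ⟨t, ht⟩ := adm (N := N) hbp p hp
      exact ⟨t, fun i => ht _⟩)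
    (fun t _ i => by unfold mem' member; omega)
    (fun t ht => by
      have hone : ∀ i : Fin (l * 2), mem' l N b i t ≤ g ^ ((E + 4) * K) := by
        intro i
        unfold mem' member
        set j := finProdFinEquiv.symm i with hj
        have hj1 : (j.1 : ℕ) ≤ K := by have := j.1.isLt; omega
        have hj2 : (j.2 : ℕ) ≤ 1 := by have := j.2.isLt; omega
        have hE1 : g ^ (E * K) ≤ g ^ ((E + 1) * K) := Nat.pow_le_pow_right hg1 (by nlinarith)
        have hE2 : g ^ K ≤ g ^ ((E + 1) * K) := Nat.pow_le_pow_right hg1 (by nlinarith)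
        have hE3 : (j.1 : ℕ) * b ≤ K * g ^ ((E + 1) * K) := Nat.mul_le_mul hj1 (hb.trans hE1)
        have h2K : 2 ≤ g ^ K := by omega
        calc N + t + j.1 * b + 2 * j.2
            ≤ g ^ ((E + 1) * K) + g ^ ((E + 1) * K) + K * g ^ ((E + 1) * K) + 2 * g ^ ((E + 1) * K) := by
              have : 1 ≤ g ^ ((E + 1) * K) := Nat.one_le_pow _ _ hg1
              omega
          _ = (K + 4) * g ^ ((E + 1) * K) := by ring
          _ ≤ (g ^ K * g ^ K * g ^ K) * g ^ ((E + 1) * K) := by
              apply Nat.mul_le_mul_right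
              have h3 : 3 ≤ g ^ K := by omega
              nlinarith [Nat.mul_le_mul h3 h3]
          _ = g ^ ((E + 4) * K) := by rw [← pow_add, ← pow_add, ← pow_add]; congr 1; ring
      calc ∏ i, mem' l N b i t ≤ ∏ _i : Fin (l * 2), g ^ ((E + 4) * K) := prod_le_prod' fun i _ => hone i
        _ = (g ^ ((E + 4) * K)) ^ (l * 2) := by simp
        _ = g ^ ((E + 4) * (l * 2) * K) := by rw [← pow_mul]; congr 1; ring) A hA
  rw [density_mem] at h2
  refine ⟨fun ⟨d, hd, hd1⟩ => ?_, ?_⟩
  · have h3 := h2.1 ⟨d, hd, fun i => hd1 _⟩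
    refine h3.trans (le_of_eq ?_)
    congr 2
    funext t
    exact propext (forall_mem l N b t fun m => AlmostPrime (g ^ K) r m)
  · refine le_trans (le_of_eq ?_) h2.2
    congr 2
    funext t
    exact propext (forall_mem l N b t fun m => m.Prime).symm

end Pool.Agent.Results.MP_a1f59e_nt.RestrictedDigits
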