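import Pool.Agent.Y843.HS.Top
import Pool.Agent.Y840.CT.Low

/-!
# Almost all twin primes, at the expected scale, lie on long narrow progressions of twin primes

For all `k ≥ 1` and `δ > 0` there is `D` such that for all large `X`, all `A`, and every set `S` of twin primes
in the interval `(A, A + X]`: all elements of `S` with at most `δ X / log ^ 2 X` exceptions lie on `k`-term
progressions of elements of `S` with difference `≤ log ^ D X`.  (The number of all twin primes in such an
interval is `O(X / log ^ 2 X)`.)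

The proof uses Szemerédi's theorem relative to sifted sets, with narrow progressions
(`Pool.Agent.Y843.HS.fin`), of the starting library.
-/

set_option autoImplicit false

open Finset Filter

namespace Pool.Agent.Results.MP_a1f59e_nt.TwinPrimesOnProgressions

/-- `p` is one of the terms of a `k`-term arithmetic progression of elements of `S` with a difference
between `1` and `D` -/
def OnAP (k : ℕ) (D : ℝ) (S : Finset ℕ) (p : ℕ) : Prop :=
  ∃ a d : ℕ, 1 ≤ d ∧ (d : ℝ) ≤ D ∧ (∀ j < k, a + j * d ∈ S) ∧ ∃ j < k, p = a + j * d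

open Pool.Agent.Y843.HS (Pr VV Pr_mem Pr_prime)
open Pool.Agent.Y843.HG (V1 V1_bounds)

/-- the sifting classes for twin primes -/
def Zt (q : ℕ) : Finset ℕ := {0, (q - 2) % q}

theorem Zt_card (q : ℕ) (hq : q.Prime) : (Zt q).card = if q = 2 then 1 else 2 := by
  unfold Zt
  split_ifs with h
  · subst h
    decide
  · have h2 := hq.two_le
    have h3 : 3 ≤ q := by omega
    rw [card_pair]
    rw [Nat.mod_eq_of_lt (by omega)]
    omega

theorem VVt (y : ℕ) (hy : 2 ≤ y) : VV Zt 0 y ≤ 2 * V1 y ^ 2 := by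
  have hsp : Pr 0 y = insert 2 (Pr 2 y) := by
    ext p
    rw [mem_insert]
    unfold Pr
    rw [mem_filter, mem_filter, mem_Ioc, mem_Ioc]
    constructor
    · rintro ⟨⟨h1, h2⟩, h3⟩
      have := h3.two_le
      by_cases h : p = 2
      · exact Or.inl h
      · exact Or.inr ⟨⟨by omega, h2⟩, h3⟩
    · rintro (rfl | ⟨⟨h1, h2⟩, h3⟩)
      · exact ⟨⟨by norm_num, hy⟩, Nat.prime_two⟩
      · exact ⟨⟨by omega, h2⟩, h3⟩
  have hn : (2 : ℕ) ∉ Pr 2 y := by
    unfold Pr
    rw [mem_filter, mem_Ioc]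
    omega
  unfold VV V1
  rw [hsp, prod_insert hn, prod_insert hn, Zt_card 2 Nat.prime_two, if_pos rfl]
  have h1 : ∏ p ∈ Pr 2 y, (1 - ((Zt p).card : ℝ) / p) ≤ (∏ p ∈ Pr 2 y, (1 - 1 / (p : ℝ))) ^ 2 := by
    rw [← prod_pow]
    apply Finset.prod_le_prod
    · intro p hp
      have hp' := hp
      unfold Pr at hp'
      rw [mem_filter, mem_Ioc] at hp'
      rw [Zt_card p hp'.2, if_neg (by omega)]
      rw [sub_nonneg, div_le_one (by exact_mod_cast hp'.2.pos)]
      exact_mod_cast hp'.2.two_le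
    · intro p hp
      have hp' := hp
      unfold Pr at hp'
      rw [mem_filter, mem_Ioc] at hp'
      rw [Zt_card p hp'.2, if_neg (by omega)]
      have : (0 : ℝ) < p := by exact_mod_cast hp'.2.pos
      have h2 : (1 - 1 / (p : ℝ)) ^ 2 = 1 - 2 / p + (1 / (p : ℝ)) ^ 2 := by ring
      rw [h2]
      push_cast
      have : 0 ≤ (1 / (p : ℝ)) ^ 2 := by positivity
      linarith
  push_cast
  nlinarith [h1]

/-- For all `k ≥ 1` and `δ > 0` there is `D` such that for all large `X`, all `A` and every set `S` of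
integers `p` in `(A, A + X]` with `p`, `p + 2` prime: all elements of `S` with at most `δ X / log ^ 2 X`
exceptions lie on `k`-term progressions of elements of `S` with difference `≤ log ^ D X`. -/
theorem result (k : ℕ) (hk : 1 ≤ k) (δ : ℝ) (hδ : 0 < δ) : ∃ D X₀ : ℕ, ∀ X : ℕ, X₀ ≤ X → ∀ A : ℕ,
    ∀ S : Finset ℕ, (∀ p ∈ S, A < p ∧ p ≤ A + X ∧ p.Prime ∧ (p + 2).Prime) →
      (Set.ncard {p : ℕ | p ∈ S ∧ ¬ OnAP k (Real.log X ^ D) S p} : ℝ) ≤ δ * (X / Real.log X ^ 2) := by
  classical
  obtain ⟨c, C, hc, hC, hV⟩ := V1_bounds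
  obtain ⟨D, X₁, h1⟩ := Pool.Agent.Y843.HS.fin k 2 (1 / 2) (δ / (64 * C ^ 2)) (by norm_num) (by positivity)
  -- thresholds
  have e1 : ∀ᶠ X : ℕ in atTop, (X : ℝ) ^ (1 / 2 : ℝ) ≤ δ / 2 * (X / Real.log X ^ 2) := by
    have h2 : Tendsto (fun x : ℝ => Real.log x ^ 2 / x ^ (1 / 2 : ℝ)) atTop (nhds 0) := by
      have h3 := isLittleO_log_rpow_rpow_atTop (s := 1 / 2) 2 (show (0 : ℝ) < 1 / 2 by norm_num)
      have h4 := h3.tendsto_div_nhds_zero
      refine h4.congr fun x => ?_
      congr 1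
      exact_mod_cast Real.rpow_natCast (Real.log x) 2
    have h3 := (h2.comp tendsto_natCast_atTop_atTop).eventually (eventually_lt_nhds (show (0 : ℝ) < δ / 2 by positivity))
    filter_upwards [h3, eventually_ge_atTop 3] with X hX hX3
    have hX0 : (0 : ℝ) < X := by exact_mod_cast (by omega : 0 < X)
    have hl : 0 < Real.log X := Real.log_pos (by exact_mod_cast (by omega : 1 < X))
    simp only [Function.comp] at hX
    have hp : (0 : ℝ) < (X : ℝ) ^ (1 / 2 : ℝ) := by positivity
    rw [div_lt_iff₀ hp] at hX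
    have h5 : (X : ℝ) ^ (1 / 2 : ℝ) * (X : ℝ) ^ (1 / 2 : ℝ) = X := by
      rw [← Real.rpow_add hX0]
      norm_num
    rw [← mul_div_assoc, le_div_iff₀ (by positivity)]
    nlinarith
  obtain ⟨X₂, h2⟩ := eventually_atTop.1 e1
  refine ⟨D, max (max X₁ X₂) 16, fun X hX A S hS => ?_⟩
  have hX1 : X₁ ≤ X := le_trans (le_trans (le_max_left _ _) (le_max_left _ _)) hX
  have hX2 := h2 X (le_trans (le_trans (le_max_right _ _) (le_max_left _ _)) hX)
  have hX16 : 16 ≤ X := le_trans (le_max_right _ _) hX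
  have hXr : (16 : ℝ) ≤ X := by exact_mod_cast hX16
  have hlX : 0 < Real.log X := Real.log_pos (by linarith)
  -- the exceptional set
  set Bd := S.filter (fun p => ¬ OnAP k (Real.log X ^ D) S p) with hBd
  have hset : {p : ℕ | p ∈ S ∧ ¬ OnAP k (Real.log X ^ D) S p} = (Bd : Set ℕ) := by
    ext p
    rw [hBd]
    simp
  rw [hset, Set.ncard_coe_finset]
  by_contra hcon
  push Not at hcon
  set B1 := Bd.filter (fun p : ℕ => (X : ℝ) ^ (1 / 2 : ℝ) < p) with hB1
  have hcard : (Bd.card : ℝ) ≤ B1.card + (X : ℝ) ^ (1 / 2 : ℝ) := by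
    have h3 := Finset.card_filter_add_card_filter_not (s := Bd) (fun p : ℕ => (X : ℝ) ^ (1 / 2 : ℝ) < p)
    have h4 : ((Bd.filter (fun p : ℕ => ¬ (X : ℝ) ^ (1 / 2 : ℝ) < p)).card : ℝ) ≤ (X : ℝ) ^ (1 / 2 : ℝ) := by
      have h5 : Bd.filter (fun p : ℕ => ¬ (X : ℝ) ^ (1 / 2 : ℝ) < p) ⊆ Ioc 0 ⌊(X : ℝ) ^ (1 / 2 : ℝ)⌋₊ := by
        intro p hp
        rw [mem_filter, hBd, mem_filter] at hp
        rw [mem_Ioc]
        exact ⟨(hS p hp.1.1).2.2.1.pos, Nat.le_floor (not_lt.1 hp.2)⟩
      have h6 := card_le_card h5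
      rw [Nat.card_Ioc] at h6
      calc ((Bd.filter (fun p : ℕ => ¬ (X : ℝ) ^ (1 / 2 : ℝ) < p)).card : ℝ) ≤
            ((⌊(X : ℝ) ^ (1 / 2 : ℝ)⌋₊ : ℕ) : ℝ) := by exact_mod_cast h6
        _ ≤ _ := Nat.floor_le (by positivity)
    rw [← h3]
    push_cast
    linarith
  have hB1c : δ / 2 * (X / Real.log X ^ 2) ≤ B1.card := by linarith
  obtain ⟨a, d, hd1, hd2, hd3⟩ := h1 X A hX1 Zt (by
      intro p hp _
      refine ⟨?_, ?_, ?_⟩
      · rw [Zt_card p hp]
        split_ifs <;> norm_num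
      · rw [Zt_card p hp]
        have := hp.two_le
        split_ifs with h <;> omega
      · intro x hx
        unfold Zt at hx
        rw [mem_insert, mem_singleton] at hx
        rcases hx with rfl | rfl
        · exact hp.pos
        · exact Nat.mod_lt _ hp.pos) B1 (by
      intro p hp
      rw [hB1, mem_filter, hBd, mem_filter] at hp
      have := hS p hp.1.1
      rw [mem_Ioc]
      exact ⟨this.1, this.2.1⟩) (by
      intro n hn p hp hpX hcon'
      rw [hB1, mem_filter, hBd, mem_filter] at hn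
      obtain ⟨-, -, n1, n2⟩ := hS n hn.1.1
      unfold Zt at hcon'
      rw [mem_insert, mem_singleton] at hcon'
      rcases hcon' with h | h
      · have h3 := (Nat.prime_dvd_prime_iff_eq hp n1).1 (Nat.dvd_of_mod_eq_zero h)
        rw [h3] at hpX
        linarith [hn.2]
      · have h3 : p ∣ n + 2 := by
          have h4 : (n + 2) % p = 0 := by
            rw [Nat.add_mod, h, ← Nat.add_mod, Nat.sub_add_cancel hp.two_le, Nat.mod_self]
          exact Nat.dvd_of_mod_eq_zero h4
        have h4 := (Nat.prime_dvd_prime_iff_eq hp n2).1 h3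
        rw [h4] at hpX
        push_cast at hpX
        linarith [hn.2]) (by
      refine le_trans ?_ hB1c
      -- the sieve product
      set y := ⌊(X : ℝ) ^ (1 / 2 : ℝ)⌋₊ with hy
      have hy4 : (4 : ℝ) ≤ (X : ℝ) ^ (1 / 2 : ℝ) := by
        have : (16 : ℝ) ^ (1 / 2 : ℝ) = 4 := by
          rw [show (16 : ℝ) = 4 ^ (2 : ℝ) by norm_num, ← Real.rpow_mul (by norm_num)]
          norm_num
        rw [← this]
        exact Real.rpow_le_rpow (by norm_num) hXr (by norm_num)
      have hy2 : 4 ≤ y := Nat.le_floor (by exact_mod_cast hy4)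
      have hyr : (4 : ℝ) ≤ y := by exact_mod_cast hy2
      have hly : Real.log X / 4 ≤ Real.log y := by
        have h3 : (X : ℝ) ^ (1 / 2 : ℝ) < y + 1 := Nat.lt_floor_add_one _
        have h4 : (X : ℝ) ^ (1 / 2 : ℝ) ≤ (y : ℝ) ^ 2 := by nlinarith
        have h5 := Real.log_le_log (by positivity) h4
        rw [Real.log_rpow (by linarith), Real.log_pow] at h5
        push_cast at h5
        linarith
      have hly0 : 0 < Real.log y := by linarith
      have h3 : VV Zt 0 y ≤ 2 * (C / Real.log y) ^ 2 := by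
        refine (VVt y (by omega)).trans ?_
        have h4 := (hV y (by omega)).2
        have h5 := Pool.Agent.Y840.CT.V1_pos y
        have := pow_le_pow_left₀ h5.le h4 2
        linarith
      have h4 : (C / Real.log y) ^ 2 ≤ 16 * C ^ 2 / Real.log X ^ 2 := by
        rw [div_pow, div_le_div_iff₀ (by positivity) (by positivity)]
        have h5 : Real.log X ^ 2 ≤ 16 * Real.log y ^ 2 := by nlinarith
        nlinarith [sq_nonneg C]
      have h5 : VV Zt 0 y ≤ 32 * C ^ 2 / Real.log X ^ 2 := by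
        calc VV Zt 0 y ≤ 2 * (16 * C ^ 2 / Real.log X ^ 2) := by linarith
          _ = _ := by ring
      calc δ / (64 * C ^ 2) * X * VV Zt 0 y ≤ δ / (64 * C ^ 2) * X * (32 * C ^ 2 / Real.log X ^ 2) :=
            mul_le_mul_of_nonneg_left h5 (by positivity)
        _ = δ / 2 * (X / Real.log X ^ 2) := by
          field_simp
          norm_num)
  have ha := hd3 0 hk
  rw [zero_mul, add_zero, hB1, mem_filter, hBd, mem_filter] at ha
  apply ha.1.2
  refine ⟨a, d, hd1, hd2, fun j hj => ?_, 0, hk, by simp⟩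
  have := hd3 j hj
  rw [hB1, mem_filter, hBd, mem_filter] at this
  exact this.1.1

end Pool.Agent.Results.MP_a1f59e_nt.TwinPrimesOnProgressions
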